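import Pool.Agent.MVO.StmtsL
import Pool.Agent.Helper87_MVO.LWA

/-!
# Squad MVO, row LWC (helper42): the one letter law over `O3`
-/

set_option autoImplicit false

namespace Pool.Agent.MVO.H42

open Pool.Agent.MVO Finset
open Pool.Agent.MVO.H87 (deg_psh deg_sg e2 deg_e2 stp_symm chain_deg chain_symm)

/-! ### profiles and partial sums -/

theorem mem_pr {k : ℕ} {a : ℕ → ℕ} {j : ℕ} :
    j ∈ pr k a ↔ j ≤ k ∧ a j ≠ 0 ∧ ∀ i < j, a i ≤ 1 := by
  unfold pr sp
  rw [mem_filter, mem_filter, mem_range, Nat.lt_succ_iff, and_assoc]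

theorem pr_subset (k : ℕ) (a : ℕ → ℕ) : pr k a ⊆ range (k + 1) := by
  intro j hj
  rw [mem_range]
  have := (mem_pr.1 hj).1
  omega

theorem card_pr_le (k : ℕ) (a : ℕ → ℕ) : (pr k a).card ≤ deg k a := by
  calc (pr k a).card = ∑ j ∈ pr k a, 1 := by rw [sum_const, smul_eq_mul, mul_one]
    _ ≤ ∑ j ∈ pr k a, a j := sum_le_sum fun j hj => Nat.one_le_iff_ne_zero.2 (mem_pr.1 hj).2.1
    _ ≤ deg k a := sum_le_sum_of_subset (pr_subset k a)

theorem deg_mono {t t' : ℕ} (h : t ≤ t') (a : ℕ → ℕ) : deg t a ≤ deg t' a :=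
  sum_le_sum_of_subset (range_subset_range.2 (by omega))

theorem le_deg {i t : ℕ} (h : i ≤ t) (a : ℕ → ℕ) : a i ≤ deg t a :=
  single_le_sum (f := a) (fun _ _ => Nat.zero_le _) (mem_range.2 (by omega))

theorem two_le_deg {i j t : ℕ} (hij : i < j) (h : j ≤ t) {a : ℕ → ℕ} (hi : a i ≠ 0)
    (hj : a j ≠ 0) : 2 ≤ deg t a := by
  have h1 : ∑ l ∈ ({i, j} : Finset ℕ), a l ≤ deg t a := by
    refine sum_le_sum_of_subset ?_
    intro l hl
    rw [mem_insert, mem_singleton] at hl
    rw [mem_range]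
    omega
  rw [sum_pair (by omega)] at h1
  omega

/-! ### the first elements of a set -/

theorem mem_tr {m : ℕ} {P : Finset ℕ} {j : ℕ} :
    j ∈ tr m P ↔ j ∈ P ∧ (P.filter (fun i => i < j)).card < m := by
  unfold tr
  rw [mem_filter]

theorem rk_lt {P : Finset ℕ} {i j : ℕ} (hi : i ∈ P) (hij : i < j) :
    (P.filter (fun l => l < i)).card < (P.filter (fun l => l < j)).card := by
  refine card_lt_card ⟨?_, ?_⟩
  · intro l hl
    rw [mem_filter] at hl ⊢
    exact ⟨hl.1, by omega⟩
  · intro h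
    have h1 := h (mem_filter.2 ⟨hi, hij⟩)
    rw [mem_filter] at h1
    omega

theorem rk_lt_card {P : Finset ℕ} {j : ℕ} (hj : j ∈ P) :
    (P.filter (fun l => l < j)).card < P.card := by
  refine card_lt_card ⟨filter_subset _ _, ?_⟩
  intro h
  have h1 := h hj
  rw [mem_filter] at h1
  omega

theorem tr_card {m : ℕ} {P : Finset ℕ} (h : m ≤ P.card) : (tr m P).card = m := by
  have inj : Set.InjOn (fun j => (P.filter (fun l => l < j)).card) (P : Set ℕ) := by
    intro i hi j hj hij
    rcases lt_trichotomy i j with h1 | h1 | h1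
    · have := rk_lt (mem_coe.1 hi) h1
      simp only at hij
      omega
    · exact h1
    · have := rk_lt (mem_coe.1 hj) h1
      simp only at hij
      omega
  have himg : P.image (fun j => (P.filter (fun l => l < j)).card) = range P.card := by
    refine eq_of_subset_of_card_le ?_ ?_
    · intro n hn
      obtain ⟨j, hj, rfl⟩ := mem_image.1 hn
      exact mem_range.2 (rk_lt_card hj)
    · rw [card_range, card_image_of_injOn inj]
  have h2 : (tr m P).image (fun j => (P.filter (fun l => l < j)).card) = range m := by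
    ext n
    rw [mem_image, mem_range]
    constructor
    · rintro ⟨j, hj, rfl⟩
      exact (mem_tr.1 hj).2
    · intro hn
      have h3 : n ∈ range P.card := mem_range.2 (by omega)
      rw [← himg] at h3
      obtain ⟨j, hj, rfl⟩ := mem_image.1 h3
      exact ⟨j, mem_tr.2 ⟨hj, hn⟩, rfl⟩
  have h4 := card_image_of_injOn (s := tr m P)
    (inj.mono (coe_subset.2 (filter_subset _ _)))
  rw [h2, card_range] at h4
  exact h4.symm

theorem tr_subset (m : ℕ) (P : Finset ℕ) : tr m P ⊆ P := filter_subset _ _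

theorem tr_of_card_le {m : ℕ} {P : Finset ℕ} (h : P.card ≤ m) : tr m P = P := by
  refine (tr_subset m P).antisymm fun j hj => mem_tr.2 ⟨hj, ?_⟩
  exact lt_of_lt_of_le (rk_lt_card hj) h

theorem tr_tr {m n : ℕ} (h : m ≤ n) (P : Finset ℕ) : tr m (tr n P) = tr m P := by
  have key : ∀ j, (P.filter (fun i => i < j)).card < n →
      (tr n P).filter (fun i => i < j) = P.filter (fun i => i < j) := by
    intro j hj
    ext i
    rw [mem_filter, mem_filter, mem_tr]
    constructor
    · rintro ⟨⟨h1, _⟩, h2⟩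
      exact ⟨h1, h2⟩
    · rintro ⟨h1, h2⟩
      exact ⟨⟨h1, (rk_lt h1 h2).trans hj⟩, h2⟩
  ext j
  rw [mem_tr, mem_tr (m := m) (P := P), mem_tr (m := n)]
  constructor
  · rintro ⟨⟨h1, h2⟩, h3⟩
    rw [key j h2] at h3
    exact ⟨h1, h3⟩
  · rintro ⟨h1, h2⟩
    refine ⟨⟨h1, by omega⟩, ?_⟩
    rw [key j (by omega)]
    exact h2

/-! ### vectors with given profile -/

theorem deg_add (k : ℕ) (a b : ℕ → ℕ) : deg k (fun j => a j + b j) = deg k a + deg k b := by
  unfold deg
  rw [sum_add_distrib]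

theorem exists_vec {k d : ℕ} {P : Finset ℕ} (hP : P ⊆ range (k + 1)) (hne : P.Nonempty)
    (hd : P.card ≤ d) : ∃ b, deg k b = d ∧ pr k b = P := by
  set x := P.max' hne with hx
  have hxP : x ∈ P := max'_mem _ _
  have hxk : x ≤ k := by
    have := mem_range.1 (hP hxP)
    omega
  refine ⟨fun j => (if j ∈ P then 1 else 0) + sg x (d - P.card) j, ?_, ?_⟩
  · rw [deg_add, deg_sg hxk]
    have h1 : deg k (fun j => if j ∈ P then 1 else 0) = P.card := by
      unfold deg
      rw [sum_ite_mem, sum_const, smul_eq_mul, mul_one, inter_eq_right.2 hP]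
    omega
  · ext j
    rw [mem_pr]
    constructor
    · rintro ⟨_, h2, _⟩
      by_contra hj
      apply h2
      rw [if_neg hj]
      unfold sg
      rw [if_neg]
      rintro rfl
      exact hj hxP
    · intro hj
      refine ⟨?_, ?_, ?_⟩
      · have := mem_range.1 (hP hj)
        omega
      · rw [if_pos hj]
        omega
      · intro i hi
        have h3 : j ≤ x := le_max' _ _ hj
        unfold sg
        rw [if_neg (by omega : ¬ i = x)]
        split_ifs <;> omega

/-- the first two elements of the profile -/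
theorem first_two {k : ℕ} {a : ℕ → ℕ} (hd : 2 ≤ deg k a) : ∃ α β : ℕ, α ≤ β ∧ β ≤ k ∧
    (∀ t, 1 ≤ deg t a ↔ α ≤ t) ∧ (∀ t, 2 ≤ deg t a ↔ β ≤ t) ∧ tr 2 (pr k a) = {α, β} := by
  classical
  have e1 : ∃ t, 1 ≤ deg t a := ⟨k, by omega⟩
  have e2' : ∃ t, 2 ≤ deg t a := ⟨k, hd⟩
  set α := Nat.find e1 with hα
  set β := Nat.find e2' with hβ
  have hα1 : ∀ t, 1 ≤ deg t a ↔ α ≤ t := by
    intro t
    constructor
    · intro h
      exact Nat.find_min' e1 h
    · intro h
      exact (Nat.find_spec e1).trans (deg_mono h a)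
  have hβ1 : ∀ t, 2 ≤ deg t a ↔ β ≤ t := by
    intro t
    constructor
    · intro h
      exact Nat.find_min' e2' h
    · intro h
      exact (Nat.find_spec e2').trans (deg_mono h a)
  have hαβ : α ≤ β := (hα1 β).1 (by have := (hβ1 β).2 le_rfl; omega)
  have hβk : β ≤ k := (hβ1 k).1 hd
  have hz : ∀ i < α, a i = 0 := by
    intro i hi
    by_contra h0
    have h1 := le_deg (le_refl i) a
    have h2 := (hα1 i).1 (by omega)
    omega
  have hs : ∀ t, deg t a = (∑ j ∈ range t, a j) + a t := fun t => sum_range_succ _ _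
  have haα : a α ≠ 0 := by
    intro h0
    have h1 := (hα1 α).2 le_rfl
    rw [hs, h0] at h1
    have h2 : ∑ j ∈ range α, a j = 0 := sum_eq_zero fun j hj => hz j (mem_range.1 hj)
    omega
  have haβ : a β ≠ 0 := by
    intro h0
    have h1 := (hβ1 β).2 le_rfl
    rw [hs, h0] at h1
    rcases Nat.eq_zero_or_pos β with h2 | h2
    · rw [h2] at h1
      simp at h1
    · obtain ⟨r, hr⟩ : ∃ r, β = r + 1 := ⟨β - 1, by omega⟩
      rw [hr] at h1
      have h3 : 2 ≤ deg r a := by
        unfold deg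
        omega
      have := (hβ1 r).1 h3
      omega
  have hmid : ∀ i, α < i → i < β → a i = 0 := by
    intro i h1 h2
    by_contra h0
    have h3 := two_le_deg h1 (le_refl i) haα h0
    have := (hβ1 i).1 h3
    omega
  have hle : ∀ i < β, a i ≤ 1 := by
    intro i hi
    by_contra h0
    have h1 := le_deg (le_refl i) a
    have := (hβ1 i).1 (by omega)
    omega
  have hαp : α ∈ pr k a := mem_pr.2 ⟨by omega, haα, fun i hi => by rw [hz i hi]; omega⟩
  have hβp : β ∈ pr k a := mem_pr.2 ⟨hβk, haβ, hle⟩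
  refine ⟨α, β, hαβ, hβk, hα1, hβ1, ?_⟩
  ext j
  rw [mem_tr, mem_insert, mem_singleton]
  constructor
  · rintro ⟨h1, h2⟩
    obtain ⟨h3, h4, h5⟩ := mem_pr.1 h1
    by_contra hne
    push Not at hne
    have h6 : α < j := by
      rcases lt_or_ge j α with h | h
      · exact absurd (hz j h) h4
      · omega
    have h7 : β < j := by
      rcases lt_or_ge j β with h | h
      · exact absurd (hmid j h6 h) h4
      · omega
    by_cases hαβ' : α = β
    · have h8 := h5 α h6
      have h9 := (hβ1 β).2 le_rfl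
      rw [hs, ← hαβ'] at h9
      have h10 : ∑ j ∈ range α, a j = 0 := sum_eq_zero fun j hj => hz j (mem_range.1 hj)
      omega
    · have h8 : ({α, β} : Finset ℕ) ⊆ (pr k a).filter (fun i => i < j) := by
        intro i hi
        rw [mem_insert, mem_singleton] at hi
        rw [mem_filter]
        rcases hi with rfl | rfl
        · exact ⟨hαp, h6⟩
        · exact ⟨hβp, h7⟩
      have h9 := card_le_card h8
      rw [card_pair hαβ'] at h9
      omega
  · rintro (rfl | rfl)
    · refine ⟨hαp, ?_⟩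
      have h1 : (pr k a).filter (fun i => i < α) = ∅ := by
        rw [filter_eq_empty_iff]
        intro i hi hiα
        exact (mem_pr.1 hi).2.1 (hz i hiα)
      rw [h1, card_empty]
      omega
    · refine ⟨hβp, ?_⟩
      have h1 : (pr k a).filter (fun i => i < β) ⊆ {α} := by
        intro i hi
        rw [mem_filter] at hi
        rw [mem_singleton]
        have h2 := (mem_pr.1 hi.1).2.1
        rcases lt_trichotomy i α with h | h | h
        · exact absurd (hz i h) h2
        · exact h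
        · exact absurd (hmid i h hi.2) h2
      have := card_le_card h1
      rw [card_singleton] at this
      omega

theorem pr_e2 {k α β d : ℕ} (hαβ : α ≤ β) (hβ : β ≤ k) (hd : 2 ≤ d) :
    pr k (e2 α β d) = {α, β} := by
  ext j
  rw [mem_pr, mem_insert, mem_singleton]
  unfold e2 sg
  constructor
  · rintro ⟨_, h2, _⟩
    by_contra hne
    push Not at hne
    rw [if_neg hne.1, if_neg hne.2] at h2
    exact h2 rfl
  · rintro (rfl | rfl)
    · refine ⟨by omega, by rw [if_pos rfl]; omega, fun i hi => ?_⟩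
      rw [if_neg (by omega), if_neg (by omega)]
      omega
    · refine ⟨hβ, by rw [if_pos (rfl : j = j)]; omega, fun i hi => ?_⟩
      rw [if_neg (by omega : ¬ i = j)]
      split_ifs <;> omega

/-! ### two blocks -/

/-- the class of a vector of degree `d` on two blocks -/
def cl (n : ℕ) : Fin 3 := if n = 0 then 0 else if n = 1 then 1 else 2

theorem deg_one (x : ℕ → ℕ) : deg 1 x = x 0 + x 1 := by
  simp [deg, sum_range_succ]

theorem pr_one {x y : ℕ → ℕ} {d : ℕ} (hd : 2 ≤ d) (hx : deg 1 x = d) (hy : deg 1 y = d)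
    (h : cl (x 0) = cl (y 0)) : pr 1 x = pr 1 y := by
  rw [deg_one] at hx hy
  have key : (x 0 = 0 ↔ y 0 = 0) ∧ (x 0 ≤ 1 ↔ y 0 ≤ 1) := by
    unfold cl at h
    split_ifs at h with h1 h2 h3 h4 h5 h6 h7 h8 <;>
      first
        | exact absurd h (by decide)
        | (constructor <;> constructor <;> intro h <;> omega)
  have hiff : ∀ (x y : ℕ → ℕ), x 0 + x 1 = d → y 0 + y 1 = d → (x 0 = 0 ↔ y 0 = 0) →
      (x 0 ≤ 1 ↔ y 0 ≤ 1) → ∀ j, j ∈ pr 1 x → j ∈ pr 1 y := by
    intro x y hx hy h0 h1 j hj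
    rw [mem_pr] at hj ⊢
    obtain ⟨h2, h3, h4⟩ := hj
    have h5 : j = 0 ∨ j = 1 := by omega
    rcases h5 with rfl | rfl
    · exact ⟨by omega, fun h => h3 (h0.2 h), fun i hi => by omega⟩
    · have h6 := h1.1 (h4 0 (by omega))
      refine ⟨le_rfl, by omega, fun i hi => ?_⟩
      have h7 : i = 0 := by omega
      rw [h7]
      exact h6
  ext j
  exact ⟨hiff x y hx hy key.1 key.2 j, hiff y x hy hx key.1.symm key.2.symm j⟩

/-- the cut behind `t` -/
def thr (t : ℕ) : ℕ → ℕ := fun j => if j ≤ t then 0 else 1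

theorem bmap_thr (k t : ℕ) : BMap k 1 (thr t) := by
  constructor
  · intro i j hij _
    unfold thr
    split_ifs <;> omega
  · intro i _
    unfold thr
    split_ifs <;> omega

theorem psh_thr {k t : ℕ} (ht : t ≤ k) (a : ℕ → ℕ) : psh k (thr t) a 0 = deg t a := by
  unfold psh deg
  rw [← sum_filter]
  refine sum_congr ?_ fun _ _ => rfl
  ext i
  rw [mem_filter, mem_range, mem_range]
  unfold thr
  constructor
  · rintro ⟨h1, h2⟩
    by_contra h3
    rw [if_neg (by omega)] at h2
    omega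
  · intro h
    exact ⟨by omega, if_pos (by omega)⟩

/-- the canonical vectors of the three classes -/
def ka (d : ℕ) : Fin 3 → ℕ → ℕ := fun c => if c = 0 then v2 0 d else if c = 1 then v2 1 (d - 1)
  else v2 d 0

theorem deg_v2 (p q : ℕ) : deg 1 (v2 p q) = p + q := by
  rw [deg_one]
  rfl

theorem deg_ka {d : ℕ} (hd : 2 ≤ d) (c : Fin 3) : deg 1 (ka d c) = d := by
  unfold ka
  split_ifs
  · rw [deg_v2]; omega
  · rw [deg_v2]; omega
  · rw [deg_v2]; omega

theorem cl_ka {d : ℕ} (hd : 2 ≤ d) (c : Fin 3) : cl (ka d c 0) = c := by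
  unfold ka
  split_ifs with h1 h2
  · rw [h1]; rfl
  · rw [h2]; rfl
  · have h3 : v2 d 0 0 = d := rfl
    rw [h3]
    unfold cl
    rw [if_neg (by omega), if_neg (by omega)]
    revert h1 h2
    revert c
    decide

section

variable (OCA : OcaStmt)

include OCA

theorem rel_one {V : FC} (hV : O3 V) {x y : ℕ → ℕ} {d : ℕ} (hd : 2 ≤ d) (hx : deg 1 x = d)
    (hy : deg 1 y = d) (h : cl (x 0) = cl (y 0)) : V.R 1 x y :=
  OCA V 1 x y hV (hx.trans hy.symm) (pr_one hd hx hy h)

theorem rel_two (TRI : TriStmt) {R S T U : FC} (oR : O3 R) (oS : O3 S) (oT : O3 T) (oU : O3 U)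
    (hRT : FLe R T) (hRU : FLe R U) (hSTU : ∀ k a b, S.R k a b → T.R k a b → U.R k a b)
    {k d : ℕ} {a a' : ℕ → ℕ} (hd : 2 ≤ d) (ha : deg k a = d) (_ha' : deg k a' = d)
    (hT : T.R k a a') (hchain : Relation.ReflTransGen (Stp R S k) a a') {t : ℕ} (ht : t ≤ k) :
    U.R 1 (ka d (cl (deg t a))) (ka d (cl (deg t a'))) := by
  have hf := bmap_thr k t
  let X : Type := {v : ℕ → ℕ // deg 1 v = d}
  have heq : ∀ V : FC, Equivalence (fun x y : X => V.R 1 x.1 y.1) := fun V =>
    ⟨fun x => V.refl 1 x.1, fun h => V.symm h, fun h h' => V.trans h h'⟩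
  have hda : deg 1 (psh k (thr t) a) = d := by rw [deg_psh hf, ha]
  have hlift : ∀ z, Relation.ReflTransGen (Stp R S k) a z →
      ∃ hz : deg 1 (psh k (thr t) z) = d, Relation.ReflTransGen
        (fun x y : X => R.R 1 x.1 y.1 ∨ S.R 1 x.1 y.1) ⟨psh k (thr t) a, hda⟩
          ⟨psh k (thr t) z, hz⟩ := by
    intro z hz
    induction hz with
    | refl => exact ⟨hda, Relation.ReflTransGen.refl⟩
    | tail hc hs ih =>
      obtain ⟨h1, h2⟩ := ih
      have h3 := chain_deg (hc.tail hs)
      refine ⟨by rw [deg_psh hf, ← h3, ha], h2.tail ?_⟩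
      rcases hs.2 with h | h
      · exact Or.inl (R.push 1 _ hf h)
      · exact Or.inr (S.push 1 _ hf h)
  obtain ⟨hda', hch⟩ := hlift a' hchain
  have hmain := TRI X (fun x y => R.R 1 x.1 y.1) (fun x y => S.R 1 x.1 y.1)
    (fun x y => T.R 1 x.1 y.1) (fun x y => U.R 1 x.1 y.1) (fun x => cl (x.1 0)) (heq R) (heq S)
    (heq T) (heq U)
    (fun x y hxy => ⟨rel_one OCA oR hd x.2 y.2 hxy, rel_one OCA oS hd x.2 y.2 hxy,
      rel_one OCA oT hd x.2 y.2 hxy, rel_one OCA oU hd x.2 y.2 hxy⟩)
    (fun x y h => hRT 1 x.1 y.1 h) (fun x y h => hRU 1 x.1 y.1 h)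
    (fun x y h h' => hSTU 1 x.1 y.1 h h') ⟨psh k (thr t) a, hda⟩ ⟨psh k (thr t) a', hda'⟩
    (T.push 1 _ hf hT) hch
  have h1 := rel_one OCA oU hd (deg_ka hd (cl (deg t a))) hda (by rw [cl_ka hd, psh_thr ht])
  have h2 := rel_one OCA oU hd hda' (deg_ka hd (cl (deg t a'))) (by rw [cl_ka hd, psh_thr ht])
  exact U.trans h1 (U.trans hmain h2)

end

/-! ### maps of two blocks -/

theorem push_two {U : FC} {x y x' y' p q k : ℕ} (h : U.R 1 (v2 x y) (v2 x' y')) (hpq : p ≤ q)
    (hq : q ≤ k) : U.R k (fun j => sg p x j + sg q y j) (fun j => sg p x' j + sg q y' j) := by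
  have hf : BMap 1 k (fun i => if i = 0 then p else q) := by
    constructor
    · intro i j hij hj
      split_ifs <;> omega
    · intro i hi
      split_ifs <;> omega
  have key : ∀ x y : ℕ, psh 1 (fun i => if i = 0 then p else q) (v2 x y) =
      fun j => sg p x j + sg q y j := by
    intro x y
    funext j
    unfold psh sg v2
    rw [sum_range_succ, sum_range_succ, sum_range_zero, zero_add]
    simp only [if_true, one_ne_zero, if_false]
    by_cases h1 : p = j <;> by_cases h2 : q = j <;>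
      simp [h1, h2, eq_comm]
  have h1 := U.push k _ hf h
  rw [key, key] at h1
  exact h1

theorem sg_zero (q : ℕ) (j : ℕ) : sg q 0 j = 0 := by
  unfold sg
  split_ifs <;> rfl

theorem e2_self {d : ℕ} (hd : 2 ≤ d) (p : ℕ) : e2 p p d = sg p d := by
  funext j
  unfold e2 sg
  split_ifs
  · omega
  · rfl

section

variable {U : FC} {d k : ℕ}

theorem use_A (h : U.R 1 (v2 d 0) (v2 1 (d - 1))) {p q : ℕ} (hpq : p ≤ q) (hq : q ≤ k) :
    U.R k (sg p d) (e2 p q d) := by
  have h1 := push_two h hpq hq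
  refine U.ext (fun j _ => ?_) (fun j _ => rfl) h1
  simp only [sg_zero, add_zero]

theorem use_B (h : U.R 1 (v2 0 d) (v2 1 (d - 1))) {p q : ℕ} (hpq : p ≤ q) (hq : q ≤ k) :
    U.R k (sg q d) (e2 p q d) := by
  have h1 := push_two h hpq hq
  refine U.ext (fun j _ => ?_) (fun j _ => rfl) h1
  simp only [sg_zero, zero_add]

theorem use_C (h : U.R 1 (v2 d 0) (v2 0 d)) {p q : ℕ} (hpq : p ≤ q) (hq : q ≤ k) :
    U.R k (sg p d) (sg q d) := by
  have h1 := push_two h hpq hq
  refine U.ext (fun j _ => ?_) (fun j _ => ?_) h1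
  · simp only [sg_zero, add_zero]
  · simp only [sg_zero, zero_add]

/-- the vectors with at most two blocks in the profile; `α < α'` or `α = α'` -/
theorem two_letters_lt (hd : 2 ≤ d) {s s' : ℕ → ℕ} {α β α' β' : ℕ} (h1 : α ≤ β) (h2 : β ≤ k)
    (h1' : α' ≤ β') (h2' : β' ≤ k)
    (hs1 : ∀ t, 1 ≤ s t ↔ α ≤ t) (hs2 : ∀ t, 2 ≤ s t ↔ β ≤ t)
    (hs1' : ∀ t, 1 ≤ s' t ↔ α' ≤ t) (hs2' : ∀ t, 2 ≤ s' t ↔ β' ≤ t)
    (hG : ∀ t ≤ k, U.R 1 (ka d (cl (s t))) (ka d (cl (s' t)))) (hlt : α < α') :
    U.R k (e2 α β d) (e2 α' β' d) := by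
  have c0 : ∀ {n : ℕ}, n = 0 → ka d (cl n) = v2 0 d := by
    intro n hn
    rw [hn]
    rfl
  have c1 : ∀ {n : ℕ}, n = 1 → ka d (cl n) = v2 1 (d - 1) := by
    intro n hn
    rw [hn]
    rfl
  have c2 : ∀ {n : ℕ}, 2 ≤ n → ka d (cl n) = v2 d 0 := by
    intro n hn
    unfold cl
    rw [if_neg (by omega), if_neg (by omega)]
    rfl
  have g1 := hG α (by omega)
  have e0 : s' α = 0 := by
    by_contra h0
    have := (hs1' α).1 (by omega)
    omega
  rw [c0 e0] at g1
  by_cases hab : α = β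
  · have e1 : 2 ≤ s α := (hs2 α).2 (by omega)
    rw [c2 e1] at g1
    -- g1 : C3
    have r1 : U.R k (e2 α β d) (sg α' d) := by
      rw [← hab, e2_self hd]
      exact use_C g1 hlt.le (by omega)
    by_cases hab' : α' = β'
    · rw [← hab', e2_self hd]
      exact r1
    · have g2 := hG α' (by omega)
      have e3 : 2 ≤ s α' := (hs2 α').2 (by omega)
      have e4 : s' α' = 1 := by
        have h3 := (hs1' α').2 le_rfl
        have h4 : ¬ 2 ≤ s' α' := fun h => by have := (hs2' α').1 h; omega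
        omega
      rw [c2 e3, c1 e4] at g2
      exact U.trans r1 (use_A g2 h1' h2')
  · have e1 : s α = 1 := by
      have h3 := (hs1 α).2 le_rfl
      have h4 : ¬ 2 ≤ s α := fun h => by have := (hs2 α).1 h; omega
      omega
    rw [c1 e1] at g1
    -- g1 : B3 (reversed)
    have hB := U.symm g1
    have r1 : U.R k (e2 α β d) (sg β d) := U.symm (use_B hB h1 h2)
    have r2 : U.R k (sg β' d) (e2 α' β' d) := use_B hB h1' h2'
    have r3 : U.R k (sg β d) (sg β' d) := by
      rcases lt_trichotomy β β' with hb | hb | hb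
      · have g2 := hG β h2
        have e3 : 2 ≤ s β := (hs2 β).2 le_rfl
        have h4 : ¬ 2 ≤ s' β := fun h => by have := (hs2' β).1 h; omega
        have hC : U.R 1 (v2 d 0) (v2 0 d) := by
          by_cases h5 : s' β = 0
          · rw [c2 e3, c0 h5] at g2
            exact g2
          · rw [c2 e3, c1 (by omega)] at g2
            exact U.trans g2 (U.symm hB)
        exact use_C hC hb.le h2'
      · rw [hb]
        exact U.refl _ _
      · have g2 := hG β' h2'
        have e3 : 2 ≤ s' β' := (hs2' β').2 le_rfl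
        have h4 : ¬ 2 ≤ s β' := fun h => by have := (hs2 β').1 h; omega
        have h5 : 1 ≤ s β' := (hs1 β').2 (by omega)
        have hC : U.R 1 (v2 d 0) (v2 0 d) := by
          rw [c2 e3, c1 (by omega)] at g2
          exact U.trans (U.symm g2) (U.symm hB)
        exact U.symm (use_C hC hb.le h2)
    exact U.trans r1 (U.trans r3 r2)

theorem two_letters_eq {s s' : ℕ → ℕ} {α β β' : ℕ} (h1 : α ≤ β)
    (h2' : β' ≤ k)
    (hs2 : ∀ t, 2 ≤ s t ↔ β ≤ t)
    (hs1' : ∀ t, 1 ≤ s' t ↔ α ≤ t) (hs2' : ∀ t, 2 ≤ s' t ↔ β' ≤ t)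
    (hG : ∀ t ≤ k, U.R 1 (ka d (cl (s t))) (ka d (cl (s' t)))) (hlt : β < β') :
    U.R k (e2 α β d) (e2 α β' d) := by
  have c1 : ∀ {n : ℕ}, n = 1 → ka d (cl n) = v2 1 (d - 1) := by
    intro n hn
    rw [hn]
    rfl
  have c2 : ∀ {n : ℕ}, 2 ≤ n → ka d (cl n) = v2 d 0 := by
    intro n hn
    unfold cl
    rw [if_neg (by omega), if_neg (by omega)]
    rfl
  have g2 := hG β (by omega)
  have e3 : 2 ≤ s β := (hs2 β).2 le_rfl
  have h3 := (hs1' β).2 h1
  have h4 : ¬ 2 ≤ s' β := fun h => by have := (hs2' β).1 h; omega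
  rw [c2 e3, c1 (by omega)] at g2
  exact U.trans (U.symm (use_A g2 h1 (by omega))) (use_A g2 (by omega) h2')

end

/-! ### removing the last element of the profile -/

section

variable (OCA : OcaStmt)

include OCA

theorem descend {U : FC} (oU : O3 U) {d k n : ℕ} (hn : 1 ≤ n) :
    ∀ (N : ℕ) (a : ℕ → ℕ), (pr k a).card = N → deg k a = d →
      (∀ m, n < m → m ≤ N → JP U m d) → ∀ b, deg k b = d → pr k b = tr n (pr k a) →
        U.R k a b := by
  intro N
  induction N with
  | zero =>
    intro a hN ha _ b hb hbp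
    rw [tr_of_card_le (by omega)] at hbp
    exact OCA U k a b oU (ha.trans hb.symm) hbp.symm
  | succ N ih =>
    intro a hN ha hJ b hb hbp
    by_cases hle : N + 1 ≤ n
    · rw [tr_of_card_le (by omega)] at hbp
      exact OCA U k a b oU (ha.trans hb.symm) hbp.symm
    · have h1 : (tr N (pr k a)).card = N := tr_card (by omega)
      obtain ⟨b', hb', hbp'⟩ := exists_vec (k := k) (d := d) (P := tr N (pr k a))
        ((tr_subset _ _).trans (pr_subset k a))
        (card_pos.1 (by omega))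
        (by have := card_pr_le k a; omega)
      have h2 : U.R k a b' := hJ (N + 1) (by omega) le_rfl k a b' ha hb' hN hbp'
      have h3 : U.R k b' b := by
        refine ih b' (by rw [hbp', h1]) hb' (fun m h4 h5 => hJ m h4 (by omega)) b hb ?_
        rw [hbp, hbp', tr_tr (by omega)]
      exact U.trans h2 h3

end

/-- the first step which changes the first `m` elements -/
theorem first_step {R S : FC} {k m : ℕ} {a b : ℕ → ℕ}
    (h : Relation.ReflTransGen (Stp R S k) a b) (hne : tr m (pr k b) ≠ tr m (pr k a)) :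
    ∃ z z', deg k z = deg k a ∧ Stp R S k z z' ∧ tr m (pr k z) = tr m (pr k a) ∧
      tr m (pr k z') ≠ tr m (pr k a) := by
  induction h with
  | refl => exact absurd rfl hne
  | tail hc hs ih =>
    rename_i y w
    by_cases hy : tr m (pr k y) = tr m (pr k a)
    · exact ⟨y, w, (chain_deg hc).symm, hs, hy, hne⟩
    · exact ih hy

theorem le_card_of_tr {m : ℕ} {P Q : Finset ℕ} (h : m ≤ P.card) (he : tr m Q = tr m P) :
    m ≤ Q.card := by
  have h1 := tr_card h
  rw [← he] at h1
  have h2 := card_le_card (tr_subset m Q)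
  omega

theorem jp_half (OCR : OcrStmt) {R S T U : FC} (oR : O3 R) (oS : O3 S) (oT : O3 T)
    (hRU : FLe R U) (hSTU : ∀ k a b, S.R k a b → T.R k a b → U.R k a b)
    {k d : ℕ} {a a' : ℕ → ℕ} (hd : 2 ≤ d) (ha : deg k a = d) (ha' : deg k a' = d)
    (hT : T.R k a a') (hchain : Relation.ReflTransGen (Stp R S k) a a') {m : ℕ} (hm : 3 ≤ m)
    (hmc : m ≤ (pr k a).card) (hne : tr m (pr k a) ≠ tr m (pr k a')) : JP U m d := by
  have hpr : ∀ {x y : ℕ → ℕ}, tr m (pr k x) ≠ tr m (pr k y) → pr k x ≠ pr k y := by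
    intro x y h he
    exact h (by rw [he])
  have hTJ : JP T m d := by
    have h1 := (OCR T k a a' oT (by omega) (by omega) hT (hpr hne)).1 m hm hne (Or.inl hmc)
    rw [ha] at h1
    exact h1
  obtain ⟨z, z', hz, hst, hz1, hz2⟩ := first_step hchain (Ne.symm hne)
  have hzd : deg k z = d := hz.trans ha
  have hne' : tr m (pr k z) ≠ tr m (pr k z') := by
    rw [hz1]
    exact Ne.symm hz2
  have hmz : m ≤ (pr k z).card := le_card_of_tr hmc hz1
  rcases hst.2 with h | h
  · have h1 := (OCR R k z z' oR (by omega) hst.1 h (hpr hne')).1 m hm hne' (Or.inl hmz)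
    rw [hzd] at h1
    intro k0 u v hu hv hc hp
    exact hRU k0 u v (h1 k0 u v hu hv hc hp)
  · have h1 := (OCR S k z z' oS (by omega) hst.1 h (hpr hne')).1 m hm hne' (Or.inl hmz)
    rw [hzd] at h1
    intro k0 u v hu hv hc hp
    exact hSTU k0 u v (h1 k0 u v hu hv hc hp) (hTJ k0 u v hu hv hc hp)

/-- Row LWC. -/
theorem lwc (TRI : TriStmt) (OCA : OcaStmt) (OCR : OcrStmt) : LwcStmt := by
  intro R S T U oR oS oT oU hRT hRU hSTU k a a' hd hdeg hT hchain
  obtain ⟨d, hda⟩ : ∃ d, deg k a = d := ⟨_, rfl⟩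
  have hda' : deg k a' = d := hdeg.symm.trans hda
  have hd2 : 2 ≤ d := by omega
  by_cases hP : pr k a = pr k a'
  · exact OCA U k a a' oU hdeg hP
  have hJ : ∀ m, 3 ≤ m → tr m (pr k a) ≠ tr m (pr k a') →
      (m ≤ (pr k a).card ∨ m ≤ (pr k a').card) → JP U m d := by
    intro m hm hne hc
    rcases hc with hc | hc
    · exact jp_half OCR oR oS oT hRU hSTU hd2 hda hda' hT hchain hm hc hne
    · exact jp_half OCR oR oS oT hRU hSTU hd2 hda' hda (T.symm hT) (chain_symm hchain) hm hc
        (Ne.symm hne)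
  obtain ⟨α, β, h1, h2, h3, h4, h5⟩ := first_two (k := k) (a := a) (by omega)
  obtain ⟨α', β', h1', h2', h3', h4', h5'⟩ := first_two (k := k) (a := a') (by omega)
  by_cases htr : tr 2 (pr k a) = tr 2 (pr k a')
  · -- a common initial segment of length at least two
    classical
    have hex : ∃ m, tr m (pr k a) ≠ tr m (pr k a') := by
      refine ⟨max (pr k a).card (pr k a').card, ?_⟩
      rw [tr_of_card_le (le_max_left _ _), tr_of_card_le (le_max_right _ _)]
      exact hP
    set n := Nat.find hex with hn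
    have hn1 : tr n (pr k a) ≠ tr n (pr k a') := Nat.find_spec hex
    have hn2 : ∀ m, n ≤ m → tr m (pr k a) ≠ tr m (pr k a') := by
      intro m hm he
      apply hn1
      rw [← tr_tr hm, he, tr_tr hm]
    have hn3 : 3 ≤ n := by
      by_contra hlt
      apply hn1
      rw [← tr_tr (show n ≤ 2 by omega), htr, tr_tr (show n ≤ 2 by omega)]
    have hn4 : tr (n - 1) (pr k a) = tr (n - 1) (pr k a') := by
      by_contra h
      exact Nat.find_min hex (m := n - 1) (by omega) h
    have hα : α ∈ tr (n - 1) (pr k a) := by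
      have h6 : α ∈ tr 2 (pr k a) := by
        rw [h5]
        exact mem_insert_self _ _
      rw [mem_tr] at h6 ⊢
      exact ⟨h6.1, by omega⟩
    obtain ⟨b, hb, hbp⟩ := exists_vec (k := k) (d := d) (P := tr (n - 1) (pr k a))
      ((tr_subset _ _).trans (pr_subset k a)) ⟨α, hα⟩
      (by have := card_pr_le k a; have := card_le_card (tr_subset (n - 1) (pr k a)); omega)
    have r1 := descend OCA oU (show 1 ≤ n - 1 by omega) _ a rfl hda
      (fun m hm hm' => hJ m (by omega) (hn2 m (by omega)) (Or.inl hm')) b hb hbp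
    have r2 := descend OCA oU (show 1 ≤ n - 1 by omega) _ a' rfl hda'
      (fun m hm hm' => hJ m (by omega) (hn2 m (by omega)) (Or.inr hm')) b hb (hbp.trans hn4)
    exact U.trans r1 (U.symm r2)
  · have hne : ∀ m, 3 ≤ m → tr m (pr k a) ≠ tr m (pr k a') := by
      intro m hm he
      apply htr
      rw [← tr_tr (show 2 ≤ m by omega), he, tr_tr (show 2 ≤ m by omega)]
    have r1 : U.R k a (e2 α β d) := descend OCA oU (show 1 ≤ 2 by omega) _ a rfl hda
      (fun m hm hm' => hJ m (by omega) (hne m (by omega)) (Or.inl hm')) _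
      (deg_e2 (by omega) h2 hd2) ((pr_e2 h1 h2 hd2).trans h5.symm)
    have r2 : U.R k a' (e2 α' β' d) := descend OCA oU (show 1 ≤ 2 by omega) _ a' rfl hda'
      (fun m hm hm' => hJ m (by omega) (hne m (by omega)) (Or.inr hm')) _
      (deg_e2 (by omega) h2' hd2) ((pr_e2 h1' h2' hd2).trans h5'.symm)
    have hG : ∀ t ≤ k, U.R 1 (ka d (cl (deg t a))) (ka d (cl (deg t a'))) := fun t ht =>
      rel_two OCA TRI oR oS oT oU hRT hRU hSTU hd2 hda hda' hT hchain ht
    have hG' : ∀ t ≤ k, U.R 1 (ka d (cl (deg t a'))) (ka d (cl (deg t a))) := fun t ht =>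
      U.symm (hG t ht)
    have r3 : U.R k (e2 α β d) (e2 α' β' d) := by
      rcases lt_trichotomy α α' with h | h | h
      · exact two_letters_lt hd2 (s := fun t => deg t a) (s' := fun t => deg t a') h1 h2 h1' h2'
          h3 h4 h3' h4' hG h
      · subst h
        rcases lt_trichotomy β β' with hb | hb | hb
        · exact two_letters_eq (s := fun t => deg t a) (s' := fun t => deg t a') h1 h2'
            h4 h3' h4' hG hb
        · rw [hb]
          exact U.refl _ _
        · exact U.symm (two_letters_eq (s := fun t => deg t a') (s' := fun t => deg t a) h1' h2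
            h4' h3 h4 hG' hb)
      · exact U.symm (two_letters_lt hd2 (s := fun t => deg t a') (s' := fun t => deg t a) h1' h2'
          h1 h2 h3' h4' h3 h4 hG' h)
    exact U.trans r1 (U.trans r3 (U.symm r2))

end Pool.Agent.MVO.H42
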